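import Mathlib

set_option autoImplicit false

open Filter Topology ZeroAtInfty

namespace Pool.Agent.Results.MP_739307_an.DependsOnNet

/-- A net `e : J → A` (indexed by a directed set `J`) is an approximate identity of the normed
algebra `A` when `‖e j * x - x‖ → 0` and `‖x * e j - x‖ → 0` for every `x` in `A`.
No boundedness is required. -/
def IsApproxIdentity {A J : Type} [NonUnitalNormedRing A] [Preorder J] (e : J → A) : Prop :=
  ∀ x : A, Tendsto (fun j => ‖e j * x - x‖) atTop (𝓝 0) ∧
    Tendsto (fun j => ‖x * e j - x‖) atTop (𝓝 0)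

/-- The condition `C(a, l, e)`: there is a net `r`, indexed by the same directed set as `e`, such
that `((l e_j - a) r_j)_j` is an approximate identity. -/
def Cond {A J : Type} [NonUnitalNormedRing A] [NormedSpace ℂ A] [Preorder J]
    (a : A) (l : ℂ) (e : J → A) : Prop :=
  ∃ r : J → A, IsApproxIdentity (fun j => (l • e j - a) * r j)

/-- A finitely supported sequence as an element of `c₀ = C₀(ℕ, ℂ)`. -/
noncomputable def trunc (n : ℕ) (f : ℕ → ℂ) : C₀(ℕ, ℂ) where
  toFun := fun i => if i ≤ n then f i else 0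
  continuous_toFun := continuous_of_discreteTopology
  zero_at_infty' := by
    rw [cocompact_eq_cofinite, Nat.cofinite_eq_atTop]
    refine tendsto_const_nhds.congr' ?_
    filter_upwards [eventually_gt_atTop n] with i hi
    simp [not_le.mpr hi]

lemma trunc_apply (n : ℕ) (f : ℕ → ℂ) (i : ℕ) : trunc n f i = if i ≤ n then f i else 0 := rfl

lemma norm_le_of_forall (x : C₀(ℕ, ℂ)) (C : ℝ) (hC : 0 ≤ C) (h : ∀ i, ‖x i‖ ≤ C) : ‖x‖ ≤ C := by
  rw [← ZeroAtInftyContinuousMap.norm_toBCF_eq_norm]
  exact (BoundedContinuousFunction.norm_le hC).mpr h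

lemma norm_apply_le (x : C₀(ℕ, ℂ)) (i : ℕ) : ‖x i‖ ≤ ‖x‖ := by
  rw [← ZeroAtInftyContinuousMap.norm_toBCF_eq_norm]
  exact x.toBCF.norm_coe_le_norm i

/-- Scaled truncations `c n • 1_{[0,n]}` with `c n → 1` form an approximate identity. -/
lemma isApproxIdentity_scaled (c : ℕ → ℂ) (hc : Tendsto c atTop (𝓝 1)) :
    IsApproxIdentity (fun n => trunc n (fun _ => c n)) := by
  have key : ∀ x : C₀(ℕ, ℂ), Tendsto (fun n => ‖trunc n (fun _ => c n) * x - x‖) atTop (𝓝 0) := by
    intro x
    rw [Metric.tendsto_atTop]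
    intro ε hε
    have hx : Tendsto (fun i => x i) atTop (𝓝 0) := by
      have := zero_at_infty x
      rwa [cocompact_eq_cofinite, Nat.cofinite_eq_atTop] at this
    rw [Metric.tendsto_atTop] at hx
    obtain ⟨N₁, hN₁⟩ := hx (ε / 2) (by positivity)
    rw [Metric.tendsto_atTop] at hc
    obtain ⟨N₂, hN₂⟩ := hc (ε / (2 * (‖x‖ + 1))) (by positivity)
    refine ⟨max N₁ N₂, fun n hn => ?_⟩
    have h1 : N₁ ≤ n := le_trans (le_max_left _ _) hn
    have h2 : N₂ ≤ n := le_trans (le_max_right _ _) hn
    have hc' := hN₂ n h2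
    rw [dist_eq_norm] at hc'
    rw [Real.dist_eq, sub_zero, abs_of_nonneg (norm_nonneg _)]
    refine lt_of_le_of_lt (norm_le_of_forall _ (ε / 2) (by positivity) ?_) (by linarith)
    intro i
    rw [ZeroAtInftyContinuousMap.sub_apply, ZeroAtInftyContinuousMap.mul_apply, trunc_apply]
    by_cases hi : i ≤ n
    · rw [if_pos hi]
      have : c n * x i - x i = (c n - 1) * x i := by ring
      rw [this, norm_mul]
      have hxi := norm_apply_le x i
      calc ‖c n - 1‖ * ‖x i‖ ≤ (ε / (2 * (‖x‖ + 1))) * (‖x‖ + 1) := by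
            apply mul_le_mul hc'.le (by linarith) (norm_nonneg _) (by positivity)
        _ = ε / 2 := by
            have : ‖x‖ + 1 ≠ 0 := by positivity
            field_simp
    · rw [if_neg hi]
      have := hN₁ i (by omega)
      rw [dist_eq_norm, sub_zero] at this
      simpa using this.le
  intro x
  refine ⟨key x, ?_⟩
  simpa only [mul_comm] using key x

/-- In the non-unital commutative C*-algebra `c₀ = C₀(ℕ, ℂ)`, for every non-zero scalar `l` there
are an element `a` and two contractive approximate identities `E`, `F`, both indexed by `ℕ`, such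
that `C(a, l, E)` holds and `C(a, l, F)` fails. -/
theorem result :
    (¬ ∃ u : C₀(ℕ, ℂ), ∀ x : C₀(ℕ, ℂ), u * x = x) ∧
    ∀ l : ℂ, l ≠ 0 → ∃ (a : C₀(ℕ, ℂ)) (E F : ℕ → C₀(ℕ, ℂ)),
      IsApproxIdentity E ∧ IsApproxIdentity F ∧ (∀ n, ‖E n‖ ≤ 1) ∧ (∀ n, ‖F n‖ ≤ 1) ∧
      Cond a l E ∧ ¬ Cond a l F := by
  refine ⟨?_, ?_⟩
  · rintro ⟨u, hu⟩
    have h1 : ∀ i, u i = 1 := by
      intro i
      have := congrArg (fun f : C₀(ℕ, ℂ) => f i) (hu (trunc i (fun _ => 1)))
      simpa [trunc_apply] using this
    have hx : Tendsto (fun i => u i) atTop (𝓝 0) := by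
      have := zero_at_infty u
      rwa [cocompact_eq_cofinite, Nat.cofinite_eq_atTop] at this
    simp only [h1] at hx
    exact one_ne_zero (tendsto_nhds_unique tendsto_const_nhds hx)
  · intro l hl
    set c : ℕ → ℂ := fun n => 1 - 1 / ((n : ℂ) + 2) with hc
    have hn2 : ∀ n : ℕ, ((n : ℂ) + 2) ≠ 0 := by
      intro n
      exact_mod_cast (by omega : n + 2 ≠ 0)
    have hct : Tendsto c atTop (𝓝 1) := by
      have h0 : Tendsto (fun n : ℕ => 1 / ((n : ℂ) + 2)) atTop (𝓝 0) := by
        rw [tendsto_zero_iff_norm_tendsto_zero]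
        have : ∀ n : ℕ, ‖1 / ((n : ℂ) + 2)‖ = 1 / ((n : ℝ) + 2) := by
          intro n
          rw [norm_div, norm_one]
          congr 1
          have : ((n : ℂ) + 2) = (((n : ℝ) + 2 : ℝ) : ℂ) := by push_cast; ring
          rw [this, Complex.norm_real, Real.norm_of_nonneg (by positivity)]
        simp only [this]
        have h := (tendsto_const_div_atTop_nhds_zero_nat (1 : ℝ)).comp (tendsto_add_atTop_nat 2)
        refine h.congr (fun n => ?_)
        simp
      have := (tendsto_const_nhds (x := (1 : ℂ))).sub h0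
      simpa [hc] using this
    have hcn : ∀ n, ‖c n‖ ≤ 1 := by
      intro n
      have : c n = (((1 : ℝ) - 1 / ((n : ℝ) + 2) : ℝ) : ℂ) := by
        simp [hc]
      rw [this, Complex.norm_real, Real.norm_eq_abs, abs_le]
      have h3 : (0 : ℝ) < 1 / ((n : ℝ) + 2) := by positivity
      have h4 : 1 / ((n : ℝ) + 2) ≤ 1 := by
        rw [div_le_one (by positivity)]
        have : (0 : ℝ) ≤ n := Nat.cast_nonneg n
        linarith
      constructor <;> linarith
    refine ⟨trunc 0 (fun _ => l), fun n => trunc n (fun _ => c n), fun n => trunc n (fun _ => 1),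
      isApproxIdentity_scaled c hct, isApproxIdentity_scaled (fun _ => 1) tendsto_const_nhds,
      ?_, ?_, ?_, ?_⟩
    · intro n
      refine norm_le_of_forall _ 1 zero_le_one (fun i => ?_)
      rw [trunc_apply]
      split_ifs
      · exact hcn n
      · simp
    · intro n
      refine norm_le_of_forall _ 1 zero_le_one (fun i => ?_)
      rw [trunc_apply]
      split_ifs <;> simp
    · -- the condition holds for `E`
      refine ⟨fun n => trunc n (fun i => if i = 0 then -((n : ℂ) + 2) / l
        else ((n : ℂ) + 2) / (((n : ℂ) + 1) * l)), ?_⟩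
      have hE : (fun n : ℕ => (l • (trunc n (fun _ => c n)) - trunc 0 (fun _ => l)) *
          trunc n (fun i => if i = 0 then -((n : ℂ) + 2) / l
            else ((n : ℂ) + 2) / (((n : ℂ) + 1) * l))) = fun n => trunc n (fun _ => (1 : ℂ)) := by
        funext n
        ext i
        rw [ZeroAtInftyContinuousMap.mul_apply, ZeroAtInftyContinuousMap.sub_apply,
          ZeroAtInftyContinuousMap.smul_apply, trunc_apply, trunc_apply, trunc_apply, trunc_apply]
        have hn1 : ((n : ℂ) + 1) ≠ 0 := by
          exact_mod_cast (by omega : n + 1 ≠ 0)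
        have hn := hn2 n
        by_cases hi : i ≤ n
        · by_cases h0 : i = 0
          · subst h0
            simp only [Nat.zero_le, if_true, hc, smul_eq_mul]
            field_simp
            ring
          · have h0' : ¬ i ≤ 0 := by omega
            simp only [hi, h0, h0', if_true, if_false, hc, smul_eq_mul]
            field_simp
            ring
        · simp [hi]
      show IsApproxIdentity _
      rw [hE]
      exact isApproxIdentity_scaled (fun _ => 1) tendsto_const_nhds
    · -- the condition fails for `F`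
      rintro ⟨r, hr⟩
      have h := (hr (trunc 0 (fun _ => 1))).1
      rw [Metric.tendsto_atTop] at h
      obtain ⟨N, hN⟩ := h 1 one_pos
      have h1 := hN N le_rfl
      rw [Real.dist_eq, sub_zero, abs_of_nonneg (norm_nonneg _)] at h1
      have h2 := norm_apply_le ((l • (trunc N (fun _ => (1 : ℂ))) - trunc 0 (fun _ => l)) * r N *
        trunc 0 (fun _ => 1) - trunc 0 (fun _ => 1)) 0
      rw [ZeroAtInftyContinuousMap.sub_apply, ZeroAtInftyContinuousMap.mul_apply,
        ZeroAtInftyContinuousMap.mul_apply, ZeroAtInftyContinuousMap.sub_apply,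
          ZeroAtInftyContinuousMap.smul_apply, trunc_apply, trunc_apply, trunc_apply] at h2
      simp at h2
      linarith

end Pool.Agent.Results.MP_739307_an.DependsOnNet
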